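import Pool.Agent.Helper446.CB.Hier

/-!
A c.e. tree of finite sequences without infinite paths (`SS`) that meets every c.e. bar, and which
is disjoint from finite sets chosen for the c.e. sets `U` of finite conditions.
-/

namespace Pool.Agent.H288R3.QM

open Encodable Pool.Agent.Helper446 Pool.Agent.Helper446.RE Pool.Agent.Helper446.CB

/-- The initial segment of length `k` of `g`. -/
def seg (g : ℕ → ℕ) (k : ℕ) : List ℕ := (List.range k).map g

theorem seg_length (g : ℕ → ℕ) (k : ℕ) : (seg g k).length = k := by simp [seg]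

theorem seg_succ (g : ℕ → ℕ) (k : ℕ) : seg g (k + 1) = seg g k ++ [g k] := by
  simp [seg, List.range_succ]

theorem seg_take (g : ℕ → ℕ) {n m : ℕ} (h : m ≤ n) : (seg g n).take m = seg g m := by
  unfold seg
  rw [← List.map_take, List.take_range, min_eq_left h]

theorem seg_prefix (g : ℕ → ℕ) {m n : ℕ} (h : m ≤ n) : seg g m <+: seg g n := by
  rw [← seg_take g h]; exact List.take_prefix _ _

theorem eq_seg_of_prefix {g : ℕ → ℕ} {σ : List ℕ} {n : ℕ} (h : σ <+: seg g n) :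
    σ = seg g σ.length := by
  have h1 : σ.length ≤ n := by simpa [seg_length] using h.length_le
  rw [← seg_take g h1]
  exact List.prefix_iff_eq_take.1 h

/-- The first entry. -/
def hd (σ : List ℕ) : ℕ := (σ[0]?).getD 0

theorem hd_comp : Computable hd :=
  (Primrec.option_getD.comp (Primrec.list_getElem?.comp Primrec.id (Primrec.const 0))
    (Primrec.const 0)).to_comp

@[fun_prop] theorem hd_comp' {α : Type} [Primcodable α] {f : α → List ℕ} (hf : Computable f) :
    Computable fun a => hd (f a) := hd_comp.comp hf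

theorem hd_append {σ τ : List ℕ} (h : σ ≠ []) : hd (σ ++ τ) = hd σ := by
  cases σ with
  | nil => exact absurd rfl h
  | cons a l => rfl

theorem hd_prefix {σ τ : List ℕ} (h : σ <+: τ) (h0 : σ ≠ []) : hd τ = hd σ := by
  obtain ⟨ρ, rfl⟩ := h
  exact hd_append h0

theorem hd_seg (g : ℕ → ℕ) {k : ℕ} (hk : 0 < k) : hd (seg g k) = g 0 := by
  obtain ⟨k, rfl⟩ := Nat.exists_eq_succ_of_ne_zero hk.ne'
  have h := hd_prefix (seg_prefix g (show 1 ≤ k + 1 by omega)) (by simp [seg])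
  rw [Nat.succ_eq_add_one, h]
  rfl

theorem cp_prefix {α : Type} [Primcodable α] {f g : α → List ℕ} (hf : Computable f)
    (hg : Computable g) : ComputablePred fun a => f a <+: g a := by
  refine (RE.cp_eq (f := fun a => (g a).take (f a).length) (g := f)
    (Primrec.list_take.to_comp.comp (by fun_prop) hg) hf).of_eq ?_
  intro a
  rw [List.prefix_iff_eq_take]
  exact eq_comm

/-- The entries: `((j, n), (v, F))`. -/
abbrev Ent : Type := (ℕ × ℕ) × (ℕ × List (List ℕ))

/-- The states. -/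
abbrev State : Type := List (ℕ × List ℕ) × List Ent

/-- The candidates. -/
abbrev Cand : Type := ℕ × (ℕ × List ℕ) × Ent

/-- The condition for the action on the tree. -/
def cR (x : State × Cand) : Prop :=
  wst (List ℕ) x.2.2.1.1 x.2.1 x.2.2.1.2 = true ∧ (∀ p ∈ x.1.1, p.1 ≠ x.2.2.1.1) ∧
  x.2.2.1.2 ≠ [] ∧ x.2.2.1.1 ≤ hd x.2.2.1.2 ∧
  ∀ p ∈ x.1.2, ∀ τ ∈ p.2.2, ¬ τ <+: x.2.2.1.2

/-- The condition for the action on the restraints. -/
def cQ (x : State × Cand) : Prop :=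
  wst (ℕ × (ℕ × List (List ℕ))) x.2.2.2.1.1 x.2.1 (x.2.2.2.1.2, x.2.2.2.2) = true ∧
  (∀ p ∈ x.1.2, p.1 ≠ x.2.2.2.1) ∧
  (∀ τ ∈ x.2.2.2.2.2, x.2.2.2.1.1 + x.2.2.2.1.2 < τ.length) ∧
  ∀ τ ∈ x.2.2.2.2.2, ∀ p ∈ x.1.1, ¬ τ <+: p.2

theorem cp_cR : ComputablePred cR := by
  refine cp_and ?_ (cp_and ?_ (cp_and ?_ (cp_and ?_ ?_)))
  · refine cp_eq (wst_comp.comp (f := fun p : (ℕ × ℕ) × List ℕ => wst (List ℕ) p.1.1 p.1.2 p.2)
      (g := fun x : State × Cand => ((x.2.2.1.1, x.2.1), x.2.2.1.2)) (by fun_prop))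
      (by fun_prop)
  · exact cp_ball (p := fun (x : State × Cand) (p : ℕ × List ℕ) => p.1 ≠ x.2.2.1.1)
      (cp_eq (by fun_prop) (by fun_prop)).not (l := fun x => x.1.1) (by fun_prop)
  · exact (cp_eq (by fun_prop) (by fun_prop)).not
  · exact cp_le (by fun_prop) (by fun_prop)
  · refine cp_ball (p := fun (x : State × Cand) (p : Ent) => ∀ τ ∈ p.2.2, ¬ τ <+: x.2.2.1.2)
      ?_ (l := fun x => x.1.2) (by fun_prop)
    exact cp_ball (p := fun (y : (State × Cand) × Ent) (τ : List ℕ) => ¬ τ <+: y.1.2.2.1.2)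
      (cp_prefix (by fun_prop) (by fun_prop)).not (l := fun y => y.2.2.2) (by fun_prop)

theorem cp_cQ : ComputablePred cQ := by
  refine cp_and ?_ (cp_and ?_ (cp_and ?_ ?_))
  · refine cp_eq (wst_comp.comp (f := fun p : (ℕ × ℕ) × (ℕ × (ℕ × List (List ℕ))) =>
      wst (ℕ × (ℕ × List (List ℕ))) p.1.1 p.1.2 p.2)
      (g := fun x : State × Cand => ((x.2.2.2.1.1, x.2.1), (x.2.2.2.1.2, x.2.2.2.2)))
      (by fun_prop)) (by fun_prop)
  · exact cp_ball (p := fun (x : State × Cand) (p : Ent) => p.1 ≠ x.2.2.2.1)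
      (cp_eq (by fun_prop) (by fun_prop)).not (l := fun x => x.1.2) (by fun_prop)
  · exact cp_ball (p := fun (x : State × Cand) (τ : List ℕ) =>
      x.2.2.2.1.1 + x.2.2.2.1.2 < τ.length)
      (cp_lt (by fun_prop) (by fun_prop)) (l := fun x => x.2.2.2.2.2) (by fun_prop)
  · refine cp_ball (p := fun (x : State × Cand) (τ : List ℕ) => ∀ p ∈ x.1.1, ¬ τ <+: p.2)
      ?_ (l := fun x => x.2.2.2.2.2) (by fun_prop)
    exact cp_ball (p := fun (y : (State × Cand) × List ℕ) (p : ℕ × List ℕ) => ¬ y.2 <+: p.2)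
      (cp_prefix (by fun_prop) (by fun_prop)).not (l := fun y => y.1.1.1) (by fun_prop)

open Classical in
/-- The first half of a stage. -/
noncomputable def stepR (x : State × Cand) : State :=
  if cR x then (x.2.2.1 :: x.1.1, x.1.2) else x.1

open Classical in
/-- The second half of a stage. -/
noncomputable def stepQ (x : State × Cand) : State :=
  if cQ x then (x.1.1, x.2.2.2 :: x.1.2) else x.1

/-- A stage. -/
noncomputable def stepF (x : State × Cand) : State := stepQ (stepR x, x.2)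

open Classical in
theorem stepF_comp : Computable stepF := by
  have h1 : Computable stepR := cite cp_cR (by fun_prop) (by fun_prop)
  have h2 : Computable stepQ := cite cp_cQ (by fun_prop) (by fun_prop)
  exact h2.comp (h1.pair Computable.snd)

/-- The candidate considered at a stage. -/
def cand (s : ℕ) : Cand := gd (0, (0, []), ((0, 0), (0, []))) s

/-- The sequence of states. -/
noncomputable def st : ℕ → State
  | 0 => ([], [])
  | s + 1 => stepF (st s, cand s)

theorem st_comp : Computable st := by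
  have h := Computable.nat_rec (f := fun n : ℕ => n) (g := fun _ => (([], []) : State))
    (h := fun _ (q : ℕ × State) => stepF (q.2, cand q.1))
    (by fun_prop) (by fun_prop) (by
      unfold Computable₂
      exact stepF_comp.comp (by unfold cand; fun_prop))
  refine h.of_eq fun n => ?_
  induction n with
  | zero => rfl
  | succ n ih => simp only [st, ← ih]

theorem stepR_fst {x : State × Cand} : x.1.1 ⊆ (stepR x).1 := by
  unfold stepR
  split_ifs
  · exact List.subset_cons_self _ _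
  · exact List.Subset.refl _

theorem stepR_snd {x : State × Cand} : (stepR x).2 = x.1.2 := by
  unfold stepR
  split_ifs <;> rfl

theorem stepQ_fst {x : State × Cand} : (stepQ x).1 = x.1.1 := by
  unfold stepQ
  split_ifs <;> rfl

theorem stepQ_snd {x : State × Cand} : x.1.2 ⊆ (stepQ x).2 := by
  unfold stepQ
  split_ifs
  · exact List.subset_cons_self _ _
  · exact List.Subset.refl _

theorem st_mono {s t : ℕ} (h : s ≤ t) : (st s).1 ⊆ (st t).1 ∧ (st s).2 ⊆ (st t).2 := by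
  induction t, h using Nat.le_induction with
  | base => exact ⟨List.Subset.refl _, List.Subset.refl _⟩
  | succ t _ ih =>
    constructor
    · refine List.Subset.trans ih.1 ?_
      show (st t).1 ⊆ (stepQ (stepR (st t, cand t), cand t)).1
      rw [stepQ_fst]
      exact stepR_fst (x := (st t, cand t))
    · refine List.Subset.trans ih.2 ?_
      show (st t).2 ⊆ (stepQ (stepR (st t, cand t), cand t)).2
      refine List.Subset.trans ?_ stepQ_snd
      show (st t).2 ⊆ (stepR (st t, cand t)).2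
      rw [stepR_snd]
      exact List.Subset.refl _

/-- The invariant. -/
structure Inv (x : State) : Prop where
  disj : ∀ p ∈ x.1, ∀ q ∈ x.2, ∀ τ ∈ q.2.2, ¬ τ <+: p.2
  valR : ∀ p ∈ x.1, (∃ t, wst (List ℕ) p.1 t p.2 = true) ∧ p.2 ≠ [] ∧ p.1 ≤ hd p.2
  uniR : ∀ p ∈ x.1, ∀ q ∈ x.1, p.1 = q.1 → p = q
  valQ : ∀ q ∈ x.2, (∃ t, wst (ℕ × (ℕ × List (List ℕ))) q.1.1 t (q.1.2, q.2) = true) ∧
    ∀ τ ∈ q.2.2, q.1.1 + q.1.2 < τ.length
  uniQ : ∀ p ∈ x.2, ∀ q ∈ x.2, p.1 = q.1 → p = q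

theorem inv_stepR {x : State} {c : Cand} (h : Inv x) : Inv (stepR (x, c)) := by
  unfold stepR
  split_ifs with hc
  · obtain ⟨h1, h2, h3, h4, h5⟩ := hc
    refine ⟨?_, ?_, ?_, h.valQ, h.uniQ⟩
    · intro p hp q hq τ hτ
      rcases List.mem_cons.1 hp with rfl | hp
      · exact h5 q hq τ hτ
      · exact h.disj p hp q hq τ hτ
    · intro p hp
      rcases List.mem_cons.1 hp with rfl | hp
      · exact ⟨⟨_, h1⟩, h3, h4⟩
      · exact h.valR p hp
    · intro p hp q hq hpq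
      rcases List.mem_cons.1 hp with rfl | hp
      · rcases List.mem_cons.1 hq with rfl | hq
        · rfl
        · exact absurd hpq.symm (h2 q hq)
      · rcases List.mem_cons.1 hq with rfl | hq
        · exact absurd hpq (h2 p hp)
        · exact h.uniR p hp q hq hpq
  · exact h

theorem inv_stepQ {x : State} {c : Cand} (h : Inv x) : Inv (stepQ (x, c)) := by
  unfold stepQ
  split_ifs with hc
  · obtain ⟨h1, h2, h3, h4⟩ := hc
    refine ⟨?_, h.valR, h.uniR, ?_, ?_⟩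
    · intro p hp q hq τ hτ
      rcases List.mem_cons.1 hq with rfl | hq
      · exact h4 τ hτ p hp
      · exact h.disj p hp q hq τ hτ
    · intro q hq
      rcases List.mem_cons.1 hq with rfl | hq
      · exact ⟨⟨_, h1⟩, h3⟩
      · exact h.valQ q hq
    · intro p hp q hq hpq
      rcases List.mem_cons.1 hp with rfl | hp
      · rcases List.mem_cons.1 hq with rfl | hq
        · rfl
        · exact absurd hpq.symm (h2 q hq)
      · rcases List.mem_cons.1 hq with rfl | hq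
        · exact absurd hpq (h2 p hp)
        · exact h.uniQ p hp q hq hpq
  · exact h

theorem inv_st (s : ℕ) : Inv (st s) := by
  induction s with
  | zero =>
    refine ⟨?_, ?_, ?_, ?_, ?_⟩ <;> intro p hp <;> exact absurd hp (by simp [st])
  | succ s ih => exact inv_stepQ (inv_stepR ih)

/-- Every candidate is considered at arbitrarily late stages with arbitrarily large bounds. -/
theorem exists_cand (N : ℕ) (a : (ℕ × List ℕ) × Ent) :
    ∃ s, N ≤ s ∧ ∃ t, N ≤ t ∧ cand s = (t, a) := by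
  refine ⟨encode ((N, a) : Cand), ?_, N, le_rfl, ?_⟩
  · show N ≤ Nat.pair (encode N) (encode a)
    exact Nat.left_le_pair _ _
  · unfold cand
    rw [gd_encode]

/-- The c.e. tree. -/
def SS : Set (List ℕ) := {τ | τ = [] ∨ ∃ s, ∃ p ∈ (st s).1, τ <+: p.2}

theorem nil_mem_SS : [] ∈ SS := Or.inl rfl

theorem SS_prefix {σ τ : List ℕ} (h : σ <+: τ) (hτ : τ ∈ SS) : σ ∈ SS := by
  rcases hτ with rfl | ⟨s, p, hp, h2⟩
  · left
    exact List.prefix_nil.1 h
  · exact Or.inr ⟨s, p, hp, h.trans h2⟩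

theorem SS_re : REPred fun τ => τ ∈ SS := by
  refine RE.or (RE.eq (by fun_prop) (by fun_prop)) ?_
  refine RE.exN (p := fun (τ : List ℕ) s => ∃ p ∈ (st s).1, τ <+: p.2) ?_
  refine RE.ex_mem (p := fun (x : List ℕ × ℕ) (p : ℕ × List ℕ) => x.1 <+: p.2)
    (cp_prefix (by fun_prop) (by fun_prop)).to_re (l := fun x => (st x.2).1) ?_
  exact Computable.fst.comp (st_comp.comp Computable.snd)

/-- The entries chosen. -/
def EE : Set Ent := {q | ∃ s, q ∈ (st s).2}

/-- The nodes chosen. -/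
def RR : Set (ℕ × List ℕ) := {p | ∃ s, p ∈ (st s).1}

theorem RR_uni {p q : ℕ × List ℕ} (hp : p ∈ RR) (hq : q ∈ RR) (h : p.1 = q.1) : p = q := by
  obtain ⟨s, hs⟩ := hp
  obtain ⟨t, ht⟩ := hq
  exact (inv_st (max s t)).uniR p ((st_mono (le_max_left _ _)).1 hs) q
    ((st_mono (le_max_right _ _)).1 ht) h

theorem EE_uni {p q : Ent} (hp : p ∈ EE) (hq : q ∈ EE) (h : p.1 = q.1) : p = q := by
  obtain ⟨s, hs⟩ := hp
  obtain ⟨t, ht⟩ := hq
  exact (inv_st (max s t)).uniQ p ((st_mono (le_max_left _ _)).2 hs) q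
    ((st_mono (le_max_right _ _)).2 ht) h

theorem RR_EE_disj {p : ℕ × List ℕ} {q : Ent} (hp : p ∈ RR) (hq : q ∈ EE) :
    ∀ τ ∈ q.2.2, ¬ τ <+: p.2 := by
  obtain ⟨s, hs⟩ := hp
  obtain ⟨t, ht⟩ := hq
  exact (inv_st (max s t)).disj p ((st_mono (le_max_left _ _)).1 hs) q
    ((st_mono (le_max_right _ _)).2 ht)

theorem EE_len {q : Ent} (hq : q ∈ EE) : ∀ τ ∈ q.2.2, q.1.1 + q.1.2 < τ.length := by
  obtain ⟨t, ht⟩ := hq
  exact ((inv_st t).valQ q ht).2

theorem EE_SS {q : Ent} (hq : q ∈ EE) : ∀ τ ∈ q.2.2, τ ∉ SS := by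
  intro τ hτ h
  rcases h with rfl | ⟨s, p, hp, h2⟩
  · have := EE_len hq _ hτ
    simp at this
  · exact RR_EE_disj ⟨s, hp⟩ hq τ hτ h2

/-- The restrained nodes. -/
def ZZ : Set (List ℕ) := {τ | ∃ q ∈ EE, τ ∈ q.2.2}

theorem ZZ_finite (k : ℕ) : {τ ∈ ZZ | τ.length ≤ k}.Finite := by
  have h1 : {q ∈ EE | q.1.1 + q.1.2 < k}.Finite := by
    refine Set.Finite.of_finite_image (f := fun q : Ent => q.1) ?_ ?_
    · refine ((Set.finite_Iio k).prod (Set.finite_Iio k)).subset ?_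
      rintro _ ⟨q, ⟨-, hq⟩, rfl⟩
      simp only [Set.mem_prod, Set.mem_Iio]
      omega
    · rintro p ⟨hp, -⟩ q ⟨hq, -⟩ h
      exact EE_uni hp hq h
  have h2 : (⋃ q ∈ {q ∈ EE | q.1.1 + q.1.2 < k}, {τ | τ ∈ q.2.2}).Finite :=
    h1.biUnion fun q _ => List.finite_toSet q.2.2
  refine h2.subset ?_
  rintro τ ⟨⟨q, hq, hτ⟩, hk⟩
  have := EE_len hq τ hτ
  exact Set.mem_biUnion (show q ∈ {q ∈ EE | q.1.1 + q.1.2 < k} from ⟨hq, by omega⟩) hτ

theorem exists_ext (e : ℕ) (ρ : List ℕ) : ∃ y, e ≤ y ∧ ρ ++ [y] ∉ ZZ := by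
  have h1 : {y : ℕ | ρ ++ [y] ∈ ZZ}.Finite := by
    refine Set.Finite.of_finite_image (f := fun y : ℕ => ρ ++ [y])
      ((ZZ_finite (ρ.length + 1)).subset ?_) ?_
    · rintro _ ⟨y, hy, rfl⟩
      exact ⟨hy, by simp⟩
    · intro y _ z _ h
      simpa using h
  obtain ⟨N, hN⟩ := h1.bddAbove
  refine ⟨max e (N + 1), le_max_left _ _, fun h => ?_⟩
  have h2 := hN h
  have h3 := le_max_right e (N + 1)
  omega

/-- Every c.e. bar meets the tree. -/
theorem bar_meets {B : Set (List ℕ)} (hB : REPred fun σ => σ ∈ B)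
    (hbar : ∀ g : ℕ → ℕ, ∃ k, seg g k ∈ B) : ∃ τ ∈ B, τ ∈ SS := by
  obtain ⟨e, he⟩ := wst_univ hB
  by_contra hcon
  push Not at hcon
  have hno : ∀ p ∈ RR, p.1 ≠ e := by
    rintro p ⟨s, hp⟩ rfl
    obtain ⟨⟨t, ht⟩, -, -⟩ := (inv_st s).valR p hp
    exact hcon p.2 ((he p.2).2 ⟨t, ht⟩) (Or.inr ⟨s, p, hp, List.prefix_refl _⟩)
  choose nx hnx1 hnx2 using exists_ext e
  let G : ℕ → List ℕ := fun k => Nat.rec (motive := fun _ => List ℕ) [] (fun _ ρ => ρ ++ [nx ρ]) k
  have hG : ∀ k, G (k + 1) = G k ++ [nx (G k)] := fun k => rfl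
  let g : ℕ → ℕ := fun k => nx (G k)
  have hseg : ∀ k, seg g k = G k := by
    intro k
    induction k with
    | zero => rfl
    | succ k ih => rw [seg_succ, ih, hG]
  obtain ⟨k, hk⟩ := hbar g
  have hk0 : 0 < k := by
    rcases Nat.eq_zero_or_pos k with rfl | h
    · exact absurd nil_mem_SS (hcon _ hk)
    · exact h
  have hpre : ∀ τ, τ <+: seg g k → τ ∉ ZZ := by
    intro τ hτ hZ
    rw [eq_seg_of_prefix hτ] at hZ
    rcases hl : τ.length with _ | l
    · rw [hl] at hZ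
      obtain ⟨q, hq, h⟩ := hZ
      have := EE_len hq _ h
      rw [seg_length] at this
      omega
    · rw [hl, hseg, hG] at hZ
      exact hnx2 _ hZ
  obtain ⟨t, ht⟩ := (he _).1 hk
  obtain ⟨s, -, t', ht', hs⟩ := exists_cand t ((e, seg g k), ((0, 0), (0, [])))
  have hc : cR (st s, cand s) := by
    rw [hs]
    refine ⟨wst_mono ht' ht, ?_, ?_, ?_, ?_⟩
    · intro p hp
      exact hno p ⟨s, hp⟩
    · intro h
      have := seg_length g k
      rw [show seg g k = [] from h] at this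
      simp at this
      omega
    · show e ≤ hd (seg g k)
      rw [hd_seg g hk0]
      exact hnx1 _
    · intro q hq τ hτ h
      exact hpre τ h ⟨q, ⟨s, hq⟩, hτ⟩
  have hmem : (e, seg g k) ∈ (st (s + 1)).1 := by
    show (e, seg g k) ∈ (stepQ (stepR (st s, cand s), cand s)).1
    rw [stepQ_fst]
    show (e, seg g k) ∈ (stepR (st s, cand s)).1
    unfold stepR
    rw [if_pos hc, hs]
    exact List.mem_cons_self
  exact hno _ ⟨s + 1, hmem⟩ rfl

/-- The dichotomy for the c.e. sets of conditions. -/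
theorem dichotomy {U : ℕ × (ℕ × List (List ℕ)) → Prop} (hU : REPred U) :
    (∃ n m, ∀ v F, U (n, (v, F)) → (∀ τ ∈ F, τ ∉ SS) → ∃ τ ∈ F, τ.length ≤ m) ∨
    ∃ f : ℕ → ℕ, Computable f ∧ ∀ n, ∃ F, U (n, (f n, F)) ∧ ∀ τ ∈ F, τ ∉ SS := by
  obtain ⟨j, hj⟩ := wst_univ hU
  by_cases hcase : ∀ n, ∃ q ∈ EE, q.1 = (j, n)
  · right
    choose q hq hqn using hcase
    refine ⟨fun n => (q n).2.1, ?_, fun n => ⟨(q n).2.2, ?_, EE_SS (hq n)⟩⟩
    · refine computable_of_graph ?_
      have h1 : REPred fun x : ℕ × ℕ => ∃ s : ℕ, ∃ p ∈ (st s).2, p.1 = (j, x.1) ∧ p.2.1 = x.2 := by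
        refine RE.exN (p := fun (x : ℕ × ℕ) s => ∃ p ∈ (st s).2, p.1 = (j, x.1) ∧ p.2.1 = x.2) ?_
        refine RE.ex_mem (p := fun (x : (ℕ × ℕ) × ℕ) (p : Ent) =>
          p.1 = (j, x.1.1) ∧ p.2.1 = x.1.2) ?_ (l := fun x => (st x.2).2) ?_
        · exact RE.and (RE.eq (by fun_prop) (by fun_prop)) (RE.eq (by fun_prop) (by fun_prop))
        · exact Computable.snd.comp (st_comp.comp Computable.snd)
      refine h1.of_eq fun x => ?_
      constructor
      · rintro ⟨s, p, hp, h2, h3⟩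
        have h4 : q x.1 = p := EE_uni (hq _) ⟨s, hp⟩ ((hqn _).trans h2.symm)
        rw [h4]; exact h3
      · intro h
        obtain ⟨s, hs⟩ := hq x.1
        exact ⟨s, q x.1, hs, hqn _, h⟩
    · obtain ⟨s, hs⟩ := hq n
      obtain ⟨⟨t, ht⟩, -⟩ := (inv_st s).valQ _ hs
      rw [hqn] at ht
      exact (hj _).2 ⟨t, ht⟩
  · left
    push Not at hcase
    obtain ⟨n, hn⟩ := hcase
    refine ⟨n, j + n, fun v F hF hFS => ?_⟩
    by_contra hcon
    push Not at hcon
    obtain ⟨t, ht⟩ := (hj _).1 hF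
    obtain ⟨s, -, t', ht', hs⟩ := exists_cand t ((0, []), ((j, n), (v, F)))
    have hc : cQ (stepR (st s, cand s), cand s) := by
      rw [hs]
      refine ⟨wst_mono ht' ht, ?_, hcon, ?_⟩
      · intro p hp
        rw [stepR_snd] at hp
        exact hn p ⟨s, hp⟩
      · intro τ hτ p hp h
        have hp' : p ∈ (st (s + 1)).1 := by
          show p ∈ (stepQ (stepR (st s, cand s), cand s)).1
          rw [stepQ_fst, hs]
          exact hp
        exact hFS τ hτ (Or.inr ⟨s + 1, p, hp', h⟩)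
    have hmem : ((j, n), (v, F)) ∈ (st (s + 1)).2 := by
      show ((j, n), (v, F)) ∈ (stepQ (stepR (st s, cand s), cand s)).2
      unfold stepQ
      rw [if_pos hc, hs]
      exact List.mem_cons_self
    exact hn _ ⟨s + 1, hmem⟩ rfl

/-- In each block, the tree is bounded. -/
theorem SS_block (b : ℕ) : ∃ h, ∀ τ ∈ SS, τ ≠ [] → hd τ = b → τ.length ≤ h := by
  have h1 : {p ∈ RR | p.1 ≤ b}.Finite := by
    refine Set.Finite.of_finite_image (f := fun q : ℕ × List ℕ => q.1) ?_ ?_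
    · refine (Set.finite_Iic b).subset ?_
      rintro _ ⟨q, ⟨-, hq⟩, rfl⟩
      exact hq
    · rintro p ⟨hp, -⟩ q ⟨hq, -⟩ h
      exact RR_uni hp hq h
  obtain ⟨h, hh⟩ := (h1.image fun p => p.2.length).bddAbove
  refine ⟨h, fun τ hτ h0 hb => ?_⟩
  rcases hτ with rfl | ⟨s, p, hp, h2⟩
  · exact absurd rfl h0
  · refine h2.length_le.trans (hh ⟨p, ⟨⟨s, hp⟩, ?_⟩, rfl⟩)
    obtain ⟨-, -, h3⟩ := (inv_st s).valR p hp
    rw [hd_prefix h2 h0, hb] at h3
    exact h3

end Pool.Agent.H288R3.QM
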