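import Pool.Agent.H288R3.QM.Construct

/-!
A bar disjoint from the c.e. tree that computes (from its enumerations) only computable functions.
-/

namespace Pool.Agent.H288R3.QM

open Encodable Pool.Agent.Helper446 Pool.Agent.Helper446.RE Pool.Agent.Helper446.CB

/-- `f` is the function whose graph is enumerated from `V` by `Θ`. -/
def Gives (Θ : ℕ × (ℕ × List (List ℕ)) → Prop) (V : Set (List ℕ)) (f : ℕ → ℕ) : Prop :=
  ∀ n v, f n = v ↔ ∃ E, Θ (n, (v, E)) ∧ ∀ τ ∈ E, τ ∈ V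

/-- The strings which can still be added. -/
def Free (l m : ℕ) (τ : List ℕ) : Prop := τ ∉ SS ∧ τ ≠ [] ∧ l ≤ hd τ ∧ m < τ.length

/-- The block `l` at level `h`. -/
def Block (l h : ℕ) : Set (List ℕ) := {τ | hd τ = l ∧ τ.length = h}

theorem block_re (l h : ℕ) : REPred fun τ => τ ∈ Block l h :=
  RE.and (RE.eq (by fun_prop) (by fun_prop)) (RE.eq (by fun_prop) (by fun_prop))

theorem block_free (l m : ℕ) : ∃ h, 0 < h ∧ ∀ τ ∈ Block l h, Free l m τ := by
  obtain ⟨h, hh⟩ := SS_block l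
  refine ⟨max h m + 1, by omega, ?_⟩
  rintro τ ⟨h1, h2⟩
  have h0 : τ ≠ [] := by
    rintro rfl
    simp at h2
  refine ⟨fun hS => ?_, h0, h1.ge, ?_⟩
  · have := hh τ hS h0 h1
    have := le_max_left h m
    omega
  · have := le_max_right h m
    omega

/-- The step of the forcing construction. -/
theorem step_exists {Θ : ℕ × (ℕ × List (List ℕ)) → Prop} (hΘ : REPred Θ) {D : Set (List ℕ)}
    (l m : ℕ) (hD : REPred fun τ => τ ∈ D) :
    ∃ (D' : Set (List ℕ)) (m' : ℕ), (REPred fun τ => τ ∈ D') ∧ D ⊆ D' ∧ m ≤ m' ∧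
      (∀ τ ∈ D', τ ∈ D ∨ Free l m τ) ∧ (∃ h, 0 < h ∧ Block l h ⊆ D') ∧
      ∀ V : Set (List ℕ), D' ⊆ V → (∀ τ ∈ V, τ ∈ D' ∨ Free (l + 1) m' τ) →
        ∀ f, Gives Θ V f → Computable f := by
  classical
  let U : ℕ × (ℕ × List (List ℕ)) → Prop := fun x =>
    (∀ τ ∈ x.2.2, τ ≠ [] ∧ l ≤ hd τ ∧ m < τ.length) ∧
    ∃ E : List (List ℕ), Θ (x.1, (x.2.1, E)) ∧ ∀ τ ∈ E, τ ∈ D ∨ τ ∈ x.2.2
  have hU : REPred U := by
    refine RE.and ?_ ?_
    · refine RE.all_mem (p := fun (x : ℕ × (ℕ × List (List ℕ))) (τ : List ℕ) =>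
        τ ≠ [] ∧ l ≤ hd τ ∧ m < τ.length) ?_ (l := fun x => x.2.2) (by fun_prop)
      exact RE.and (RE.ne (by fun_prop) (by fun_prop)) (RE.and (RE.le (by fun_prop) (by fun_prop))
        (RE.lt (by fun_prop) (by fun_prop)))
    · refine RE.ex (p := fun (x : ℕ × (ℕ × List (List ℕ))) (E : List (List ℕ)) =>
        Θ (x.1, (x.2.1, E)) ∧ ∀ τ ∈ E, τ ∈ D ∨ τ ∈ x.2.2) ?_
      refine RE.and ?_ ?_
      · exact RE.comp hΘ (f := fun y : (ℕ × (ℕ × List (List ℕ))) × List (List ℕ) =>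
          (y.1.1, (y.1.2.1, y.2))) (by fun_prop)
      · refine RE.all_mem (p := fun (y : (ℕ × (ℕ × List (List ℕ))) × List (List ℕ))
          (τ : List ℕ) => τ ∈ D ∨ τ ∈ y.1.2.2) ?_ (l := fun y => y.2) (by fun_prop)
        exact RE.or (RE.comp hD (by fun_prop)) (RE.mem_list (by fun_prop) (by fun_prop))
  -- the key consequence: uses of `V` give elements of `U`
  have key : ∀ (D' : Set (List ℕ)) (m' : ℕ), D ⊆ D' → m ≤ m' →
      ∀ V : Set (List ℕ), (∀ τ ∈ V, τ ∈ D ∨ Free l m' τ) → ∀ n v E, Θ (n, (v, E)) →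
        (∀ τ ∈ E, τ ∈ V) → ∃ F, U (n, (v, F)) ∧ (∀ τ ∈ F, Free l m' τ) := by
    intro D' m' _ hm V hV n v E hE hEV
    refine ⟨E.filter (fun τ => τ ∉ D), ⟨?_, E, hE, ?_⟩, ?_⟩
    · intro τ hτ
      rw [List.mem_filter] at hτ
      rcases hV τ (hEV τ hτ.1) with h | h
      · exact absurd h (by simpa using hτ.2)
      · exact ⟨h.2.1, h.2.2.1, lt_of_le_of_lt hm h.2.2.2⟩
    · intro τ hτ
      by_cases h : τ ∈ D
      · exact Or.inl h
      · right
        rw [List.mem_filter]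
        exact ⟨hτ, by simpa using h⟩
    · intro τ hτ
      rw [List.mem_filter] at hτ
      rcases hV τ (hEV τ hτ.1) with h | h
      · exact absurd h (by simpa using hτ.2)
      · exact h
  rcases dichotomy hU with ⟨n, k, hA⟩ | ⟨g, hg, hB⟩
  · -- stuck: the operator does not give a total function
    obtain ⟨h, h0, hfree⟩ := block_free l (max m k)
    refine ⟨D ∪ Block l h, max m k, RE.or hD (block_re l h), Set.subset_union_left,
      le_max_left _ _, ?_, ⟨h, h0, Set.subset_union_right⟩, ?_⟩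
    · rintro τ (hτ | hτ)
      · exact Or.inl hτ
      · obtain ⟨h1, h2, h3, h4⟩ := hfree τ hτ
        exact Or.inr ⟨h1, h2, h3, lt_of_le_of_lt (le_max_left _ _) h4⟩
    · intro V hDV hV f hf
      exfalso
      obtain ⟨E, hE, hEV⟩ := (hf n (f n)).1 rfl
      have hV' : ∀ τ ∈ V, τ ∈ D ∨ Free l (max m k) τ := by
        intro τ hτ
        rcases hV τ hτ with (h1 | h1) | h1
        · exact Or.inl h1
        · exact Or.inr (hfree τ h1)
        · exact Or.inr ⟨h1.1, h1.2.1, by have := h1.2.2.1; omega, h1.2.2.2⟩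
      obtain ⟨F, hF, hFree⟩ := key D (max m k) (Set.Subset.refl _) (le_max_left _ _) V hV'
        n (f n) E hE hEV
      obtain ⟨τ, hτ, hlen⟩ := hA (f n) F hF fun τ hτ => (hFree τ hτ).1
      have h1 := (hFree τ hτ).2.2.2
      have h2 := le_max_right m k
      omega
  · obtain ⟨h, h0, hfree⟩ := block_free l m
    by_cases hcase : ∃ n v F, U (n, (v, F)) ∧ (∀ τ ∈ F, τ ∉ SS) ∧ v ≠ g n
    · -- the operator is inconsistent
      obtain ⟨n, v, F, hF, hFS, hv⟩ := hcase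
      obtain ⟨F', hF', hFS'⟩ := hB n
      refine ⟨D ∪ (Block l h ∪ {τ | τ ∈ F ++ F'}), m, RE.or hD (RE.or (block_re l h)
        (RE.mem_list (by fun_prop) (by fun_prop))), Set.subset_union_left,
        le_rfl, ?_, ⟨h, h0, ?_⟩, ?_⟩
      · rintro τ (hτ | hτ | hτ)
        · exact Or.inl hτ
        · exact Or.inr (hfree τ hτ)
        · right
          rcases List.mem_append.1 (show τ ∈ F ++ F' from hτ) with h1 | h1
          · exact ⟨hFS τ h1, hF.1 τ h1⟩
          · exact ⟨hFS' τ h1, hF'.1 τ h1⟩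
      · exact fun τ hτ => Or.inr (Or.inl hτ)
      · intro V hDV _ f hf
        exfalso
        obtain ⟨-, E, hE, hED⟩ := hF
        obtain ⟨-, E', hE', hED'⟩ := hF'
        have h1 : f n = v := (hf n v).2 ⟨E, hE, fun τ hτ => hDV (by
          rcases hED τ hτ with h1 | h1
          · exact Or.inl h1
          · exact Or.inr (Or.inr (List.mem_append_left _ h1)))⟩
        have h2 : f n = g n := (hf n (g n)).2 ⟨E', hE', fun τ hτ => hDV (by
          rcases hED' τ hτ with h1 | h1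
          · exact Or.inl h1
          · exact Or.inr (Or.inr (List.mem_append_right _ h1)))⟩
        exact hv (h1.symm.trans h2)
    · -- the operator gives a computable function
      push Not at hcase
      refine ⟨D ∪ Block l h, m, RE.or hD (block_re l h), Set.subset_union_left,
        le_rfl, ?_, ⟨h, h0, Set.subset_union_right⟩, ?_⟩
      · rintro τ (hτ | hτ)
        · exact Or.inl hτ
        · exact Or.inr (hfree τ hτ)
      · intro V hDV hV f hf
        have hV' : ∀ τ ∈ V, τ ∈ D ∨ Free l m τ := by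
          intro τ hτ
          rcases hV τ hτ with (h1 | h1) | h1
          · exact Or.inl h1
          · exact Or.inr (hfree τ h1)
          · exact Or.inr ⟨h1.1, h1.2.1, by have := h1.2.2.1; omega, h1.2.2.2⟩
        refine hg.of_eq fun n => ?_
        obtain ⟨E, hE, hEV⟩ := (hf n (f n)).1 rfl
        obtain ⟨F, hF, hFree⟩ := key D m (Set.Subset.refl _) le_rfl V hV' n (f n) E hE hEV
        exact (hcase n (f n) F hF fun τ hτ => (hFree τ hτ).1).symm

/-- The states of the forcing construction. -/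
abbrev FState : Type := {x : Set (List ℕ) × ℕ // REPred fun τ => τ ∈ x.1}

/-- The `i`-th operator. -/
def Th (i : ℕ) : ℕ × (ℕ × List (List ℕ)) → Prop :=
  fun x => ∃ s, wst (ℕ × (ℕ × List (List ℕ))) i s x = true

theorem fstep_exists (i : ℕ) (x : FState) : ∃ y : FState, x.1.1 ⊆ y.1.1 ∧ x.1.2 ≤ y.1.2 ∧
      (∀ τ ∈ y.1.1, τ ∈ x.1.1 ∨ Free i x.1.2 τ) ∧ (∃ h, 0 < h ∧ Block i h ⊆ y.1.1) ∧
      ∀ V : Set (List ℕ), y.1.1 ⊆ V → (∀ τ ∈ V, τ ∈ y.1.1 ∨ Free (i + 1) y.1.2 τ) →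
        ∀ f, Gives (Th i) V f → Computable f := by
  obtain ⟨D', m', h1, h2, h3, h4, h5, h6⟩ := step_exists (wst_re i) i x.1.2 x.2
  exact ⟨⟨(D', m'), h1⟩, h2, h3, h4, h5, h6⟩

/-- The sequence of states of the forcing construction. -/
noncomputable def fst' : ℕ → FState
  | 0 => ⟨(∅, 0), by simpa using RE.const False⟩
  | i + 1 => (fstep_exists i (fst' i)).choose

/-- The `i`-th part. -/
noncomputable def DD (i : ℕ) : Set (List ℕ) := (fst' i).1.1

/-- The `i`-th bound. -/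
noncomputable def mm (i : ℕ) : ℕ := (fst' i).1.2

theorem DD_succ (i : ℕ) : DD i ⊆ DD (i + 1) ∧ mm i ≤ mm (i + 1) ∧
      (∀ τ ∈ DD (i + 1), τ ∈ DD i ∨ Free i (mm i) τ) ∧ (∃ h, 0 < h ∧ Block i h ⊆ DD (i + 1)) ∧
      ∀ V : Set (List ℕ), DD (i + 1) ⊆ V →
        (∀ τ ∈ V, τ ∈ DD (i + 1) ∨ Free (i + 1) (mm (i + 1)) τ) →
        ∀ f, Gives (Th i) V f → Computable f :=
  (fstep_exists i (fst' i)).choose_spec

/-- The bar. -/
noncomputable def VV : Set (List ℕ) := ⋃ i, DD i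

theorem DD_later {i j : ℕ} (h : i ≤ j) : mm i ≤ mm j ∧
    ∀ τ ∈ DD j, τ ∈ DD i ∨ Free i (mm i) τ := by
  induction j, h using Nat.le_induction with
  | base => exact ⟨le_rfl, fun τ hτ => Or.inl hτ⟩
  | succ j hij ih =>
    obtain ⟨-, h2, h3, -, -⟩ := DD_succ j
    refine ⟨ih.1.trans h2, fun τ hτ => ?_⟩
    rcases h3 τ hτ with h4 | h4
    · exact ih.2 τ h4
    · exact Or.inr ⟨h4.1, h4.2.1, hij.trans h4.2.2.1, lt_of_le_of_lt ih.1 h4.2.2.2⟩

theorem DD_mono {i j : ℕ} (h : i ≤ j) : DD i ⊆ DD j := by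
  induction j, h using Nat.le_induction with
  | base => exact Set.Subset.refl _
  | succ j hij ih => exact Set.Subset.trans ih (DD_succ j).1

theorem VV_free (i : ℕ) : ∀ τ ∈ VV, τ ∈ DD i ∨ Free i (mm i) τ := by
  intro τ hτ
  obtain ⟨j, hj⟩ := Set.mem_iUnion.1 hτ
  rcases le_total i j with h | h
  · exact (DD_later h).2 τ hj
  · exact Or.inl (DD_mono h hj)

theorem VV_disj : ∀ τ ∈ VV, τ ∉ SS := by
  intro τ hτ
  rcases VV_free 0 τ hτ with h | h
  · exact absurd h (by unfold DD fst'; simp)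
  · exact h.1

theorem VV_bar (g : ℕ → ℕ) : ∃ k, seg g k ∈ VV := by
  obtain ⟨-, -, -, ⟨h, h0, hb⟩, -⟩ := DD_succ (g 0)
  refine ⟨h, Set.mem_iUnion.2 ⟨g 0 + 1, hb ⟨hd_seg g h0, seg_length g h⟩⟩⟩

theorem VV_functions {Θ : ℕ × (ℕ × List (List ℕ)) → Prop} (hΘ : REPred Θ) {f : ℕ → ℕ}
    (hf : Gives Θ VV f) : Computable f := by
  obtain ⟨i, hi⟩ := wst_univ hΘ
  obtain ⟨-, -, -, -, h⟩ := DD_succ i
  refine h VV (Set.subset_iUnion _ _) (VV_free (i + 1)) f fun n v => ?_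
  rw [hf n v]
  refine exists_congr fun E => and_congr_left fun _ => ?_
  exact hi _

end Pool.Agent.H288R3.QM
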