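import Pool.Agent.H288R3.QM.Force

/-!
The functional attached to the c.e. tree.
-/

namespace Pool.Agent.H288R3.QM

open Encodable Pool.Agent.Helper446 Pool.Agent.Helper446.RE Pool.Agent.Helper446.CB

theorem exists_q : ∃ q : List ℕ → ℕ → Bool, Computable₂ q ∧ ∀ σ, σ ∈ SS ↔ ∃ n, q σ n = true :=
  re_iff.1 SS_re

/-- A computable enumeration of the tree. -/
noncomputable def qq : List ℕ → ℕ → Bool := exists_q.choose

theorem qq_comp : Computable₂ qq := exists_q.choose_spec.1

theorem qq_iff (σ : List ℕ) : σ ∈ SS ↔ ∃ n, qq σ n = true := exists_q.choose_spec.2 σ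

/-- `s` is the first stage at which `σ` is enumerated. -/
def Hit (σ : List ℕ) (s : ℕ) : Prop := qq σ s = true ∧ ∀ s' ∈ List.range s, ¬ qq σ s' = true

theorem hit_cp : ComputablePred fun x : List ℕ × ℕ => Hit x.1 x.2 := by
  refine cp_and (cp_eq (qq_comp.comp (by fun_prop) (by fun_prop)) (by fun_prop)) ?_
  refine cp_ball (p := fun (x : List ℕ × ℕ) (s' : ℕ) => ¬ qq x.1 s' = true) ?_
    (l := fun x => List.range x.2) (by fun_prop)
  exact (cp_eq (qq_comp.comp (by fun_prop) (by fun_prop)) (by fun_prop)).not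

theorem hit_unique {σ : List ℕ} {s t : ℕ} (hs : Hit σ s) (ht : Hit σ t) : s = t := by
  rcases lt_trichotomy s t with h | h | h
  · exact absurd hs.1 (ht.2 s (List.mem_range.2 h))
  · exact h
  · exact absurd ht.1 (hs.2 t (List.mem_range.2 h))

theorem hit_mem {σ : List ℕ} {s : ℕ} (hs : Hit σ s) : σ ∈ SS := (qq_iff σ).2 ⟨s, hs.1⟩

theorem exists_hit {σ : List ℕ} (h : σ ∈ SS) : ∃ s, Hit σ s := by
  classical
  have h1 := (qq_iff σ).1 h
  exact ⟨Nat.find h1, Nat.find_spec h1, fun s' hs' => Nat.find_min h1 (List.mem_range.1 hs')⟩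

theorem exists_not_hit (σ : List ℕ) : ∃ s, ¬ Hit σ s := by
  by_cases h : Hit σ 0
  · refine ⟨1, fun h1 => ?_⟩
    have := hit_unique h h1
    omega
  · exact ⟨0, h⟩

open Classical in
/-- The contribution of a position. -/
noncomputable def ind (σ : List ℕ) (s : ℕ) : ℕ := if Hit σ s then 1 else 0

open Classical in
theorem ind_comp : Computable fun x : List ℕ × ℕ => ind x.1 x.2 :=
  cite hit_cp (by fun_prop) (by fun_prop)

/-- The number of hits of `g` before `k`. -/
noncomputable def HH (g : ℕ → ℕ) : ℕ → ℕ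
  | 0 => 0
  | k + 1 => HH g k + ind (seg g k) (g k)

/-- The function extending `σ` by zeros. -/
def ext (σ : List ℕ) (i : ℕ) : ℕ := (σ[i]?).getD 0

/-- The number of hits along `σ`. -/
noncomputable def cnt (σ : List ℕ) : ℕ := HH (ext σ) σ.length

theorem seg_congr {g h : ℕ → ℕ} {k : ℕ} (hgh : ∀ i < k, g i = h i) : seg g k = seg h k := by
  unfold seg
  refine List.map_congr_left fun i hi => hgh i (List.mem_range.1 hi)

theorem HH_congr {g h : ℕ → ℕ} {k : ℕ} (hgh : ∀ i < k, g i = h i) : HH g k = HH h k := by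
  induction k with
  | zero => rfl
  | succ k ih =>
    show HH g k + ind (seg g k) (g k) = HH h k + ind (seg h k) (h k)
    rw [ih fun i hi => hgh i (by omega), hgh k (by omega),
      seg_congr (k := k) fun i hi => hgh i (by omega)]

theorem ext_seg (g : ℕ → ℕ) {k i : ℕ} (h : i < k) : ext (seg g k) i = g i := by
  unfold ext seg
  simp [h]

theorem seg_ext (σ : List ℕ) {j : ℕ} (h : j ≤ σ.length) : seg (ext σ) j = σ.take j := by
  apply List.ext_getElem?
  intro i
  unfold seg ext
  by_cases hi : i < j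
  · have h2 : i < σ.length := by omega
    simp [hi, h2]
  · simp [hi]

theorem cnt_seg (g : ℕ → ℕ) (k : ℕ) : cnt (seg g k) = HH g k := by
  unfold cnt
  rw [seg_length]
  exact HH_congr fun i hi => ext_seg g hi

theorem cnt_comp : Computable cnt := by
  have htake : Computable fun x : List ℕ × ℕ => x.1.take x.2 :=
    Primrec.list_take.to_comp.comp Computable.snd Computable.fst
  have hext : Computable fun x : List ℕ × ℕ => ext x.1 x.2 :=
    (Primrec.option_getD.comp (Primrec.list_getElem?.comp Primrec.fst Primrec.snd)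
      (Primrec.const 0)).to_comp
  have h := Computable.nat_rec (f := fun σ : List ℕ => σ.length) (g := fun _ => (0 : ℕ))
    (h := fun (σ : List ℕ) (q : ℕ × ℕ) => q.2 + ind (σ.take q.1) (ext σ q.1))
    (by fun_prop) (by fun_prop) (by
      unfold Computable₂
      refine cadd (by fun_prop) ?_
      refine ind_comp.comp (g := fun x : List ℕ × (ℕ × ℕ) => (x.1.take x.2.1, ext x.1 x.2.1))
        (Computable.pair ?_ ?_)
      · exact htake.comp (g := fun x : List ℕ × (ℕ × ℕ) => (x.1, x.2.1)) (by fun_prop)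
      · exact hext.comp (g := fun x : List ℕ × (ℕ × ℕ) => (x.1, x.2.1)) (by fun_prop))
  refine h.of_eq fun σ => ?_
  unfold cnt
  have key : ∀ n ≤ σ.length, (Nat.rec (motive := fun _ => ℕ) 0
      (fun j acc => acc + ind (σ.take j) (ext σ j)) n : ℕ) = HH (ext σ) n := by
    intro n
    induction n with
    | zero => intro _; rfl
    | succ n ih =>
      intro hn
      show (Nat.rec (motive := fun _ => ℕ) 0
        (fun j acc => acc + ind (σ.take j) (ext σ j)) n : ℕ) + ind (σ.take n) (ext σ n) =
        HH (ext σ) n + ind (seg (ext σ) n) (ext σ n)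
      rw [ih (by omega), seg_ext σ (by omega)]
  exact key _ le_rfl

theorem HH_stable {g : ℕ → ℕ} {k : ℕ} (hk : seg g k ∉ SS) {n : ℕ} (h : k ≤ n) :
    HH g n = HH g k := by
  induction n, h using Nat.le_induction with
  | base => rfl
  | succ n hn ih =>
    show HH g n + ind (seg g n) (g n) = HH g k
    have h1 : ind (seg g n) (g n) = 0 := by
      unfold ind
      rw [if_neg]
      intro h2
      exact hk (SS_prefix (seg_prefix g hn) (hit_mem h2))
    rw [ih, h1, add_zero]

theorem exists_out (g : ℕ → ℕ) : ∃ k, seg g k ∉ SS := by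
  obtain ⟨k, hk⟩ := VV_bar g
  exact ⟨k, VV_disj _ hk⟩

/-- The functional: the number of hits. -/
noncomputable def Phi (g : ℕ → ℕ) : ℕ := HH g (exists_out g).choose

theorem Phi_eq {g : ℕ → ℕ} {k : ℕ} (hk : seg g k ∉ SS) : Phi g = HH g k := by
  unfold Phi
  rcases le_total k (exists_out g).choose with h | h
  · exact HH_stable hk h
  · exact (HH_stable (exists_out g).choose_spec h).symm

theorem Phi_local (g : ℕ → ℕ) : ∃ k, ∀ h : ℕ → ℕ, (∀ i < k, h i = g i) → Phi h = Phi g := by
  obtain ⟨k, hk⟩ := exists_out g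
  refine ⟨k, fun h hh => ?_⟩
  rw [Phi_eq hk, Phi_eq (k := k) (by rw [seg_congr hh]; exact hk), HH_congr hh]

/-- A choice of a value that is not a hit. -/
noncomputable def na (σ : List ℕ) : ℕ := (exists_not_hit σ).choose

theorem na_spec (σ : List ℕ) : ¬ Hit σ (na σ) := (exists_not_hit σ).choose_spec

/-- The strings of the extension of `ρ` without further hits. -/
noncomputable def GG (ρ : List ℕ) : ℕ → List ℕ
  | 0 => ρ
  | k + 1 => GG ρ k ++ [na (GG ρ k)]

theorem GG_length (ρ : List ℕ) (k : ℕ) : (GG ρ k).length = ρ.length + k := by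
  induction k with
  | zero => rfl
  | succ k ih =>
    show (GG ρ k ++ [na (GG ρ k)]).length = _
    rw [List.length_append, ih]; rfl

theorem GG_prefix (ρ : List ℕ) {m n : ℕ} (h : m ≤ n) : GG ρ m <+: GG ρ n := by
  induction n, h using Nat.le_induction with
  | base => exact List.prefix_refl _
  | succ n _ ih => exact ih.trans (List.prefix_append _ _)

/-- The extension of `ρ` without further hits. -/
noncomputable def gg (ρ : List ℕ) (i : ℕ) : ℕ := ((GG ρ (i + 1))[i]?).getD 0

theorem seg_gg (ρ : List ℕ) (k : ℕ) : seg (gg ρ) (ρ.length + k) = GG ρ k := by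
  apply List.ext_getElem?
  intro i
  by_cases hi : i < ρ.length + k
  · have h1 : (seg (gg ρ) (ρ.length + k))[i]? = some (gg ρ i) := by
      unfold seg
      simp [hi]
    rw [h1]
    unfold gg
    have h2 : i < (GG ρ k).length := by rw [GG_length]; exact hi
    have h3 : i < (GG ρ (i + 1)).length := by rw [GG_length]; omega
    rw [List.getElem?_eq_getElem h3, List.getElem?_eq_getElem h2, Option.getD_some]
    congr 1
    rcases le_total k (i + 1) with h | h
    · exact ((GG_prefix ρ h).getElem h2).symm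
    · exact (GG_prefix ρ h).getElem h3
  · rw [List.getElem?_eq_none (by rw [seg_length]; omega),
      List.getElem?_eq_none (by rw [GG_length]; omega)]

theorem Phi_gg (ρ : List ℕ) : Phi (gg ρ) = cnt ρ := by
  have h1 : ∀ k, HH (gg ρ) (ρ.length + k) = cnt ρ := by
    intro k
    induction k with
    | zero =>
      rw [← cnt_seg, seg_gg]
      rfl
    | succ k ih =>
      show HH (gg ρ) (ρ.length + k) + ind (seg (gg ρ) (ρ.length + k)) (gg ρ (ρ.length + k)) = _
      rw [ih, seg_gg]
      have h2 : gg ρ (ρ.length + k) = na (GG ρ k) := by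
        have h3 := seg_gg ρ (k + 1)
        rw [← add_assoc, seg_succ, seg_gg] at h3
        have h4 : GG ρ (k + 1) = GG ρ k ++ [na (GG ρ k)] := rfl
        rw [h4] at h3
        simpa using h3
      rw [h2]
      unfold ind
      rw [if_neg (na_spec _)]
      rfl
  obtain ⟨k, hk⟩ := exists_out (gg ρ)
  have h2 : seg (gg ρ) (ρ.length + k) ∉ SS := fun h =>
    hk (SS_prefix (seg_prefix _ (by omega)) h)
  rw [Phi_eq h2, h1]

theorem cnt_append (σ : List ℕ) (s : ℕ) : cnt (σ ++ [s]) = cnt σ + ind σ s := by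
  have h1 : σ ++ [s] = seg (ext (σ ++ [s])) (σ.length + 1) := by
    rw [seg_ext _ (by simp)]
    rw [List.take_of_length_le (by simp)]
  have h2 : ∀ i < σ.length, ext (σ ++ [s]) i = ext σ i := by
    intro i hi
    unfold ext
    rw [List.getElem?_append_left hi]
  have h3 : ext (σ ++ [s]) σ.length = s := by
    unfold ext
    simp
  have h4 : seg (ext (σ ++ [s])) σ.length = σ := by
    rw [seg_congr h2, seg_ext σ le_rfl, List.take_length]
  rw [h1, cnt_seg]
  show HH (ext (σ ++ [s])) σ.length + ind (seg (ext (σ ++ [s])) σ.length)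
    (ext (σ ++ [s]) σ.length) = _
  rw [h3, h4, HH_congr h2]
  rfl

/-- The functional is not constant on the cone above a node of the tree. -/
theorem Phi_not_const {σ : List ℕ} (hσ : σ ∈ SS) : ∃ g h : ℕ → ℕ,
    seg g σ.length = σ ∧ seg h σ.length = σ ∧ Phi g ≠ Phi h := by
  obtain ⟨s, hs⟩ := exists_hit hσ
  have hpre : ∀ y, seg (gg (σ ++ [y])) σ.length = σ := by
    intro y
    have h1 := seg_gg (σ ++ [y]) 0
    have h2 : seg (gg (σ ++ [y])) σ.length = (σ ++ [y]).take σ.length := by
      have h3 : GG (σ ++ [y]) 0 = σ ++ [y] := rfl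
      rw [h3] at h1
      rw [← seg_take (gg (σ ++ [y])) (show σ.length ≤ (σ ++ [y]).length + 0 by simp), h1]
    rw [h2]
    simp
  refine ⟨gg (σ ++ [s]), gg (σ ++ [s + 1]), hpre _, hpre _, ?_⟩
  rw [Phi_gg, Phi_gg, cnt_append, cnt_append]
  unfold ind
  rw [if_pos hs, if_neg]
  · omega
  · intro h
    have := hit_unique hs h
    omega

end Pool.Agent.H288R3.QM
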